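import Pool.Agent.H638.IB.Final

/-! Iterated intersection bodies of origin-symmetric convex bodies in dimension at least three
converge to the Euclidean ball in the Banach-Mazur distance, uniformly in the body. -/

set_option autoImplicit false

open MeasureTheory Set Filter Topology Metric
open scoped Pointwise

namespace Pool.Agent.Results.MP_5ac201_gt.UniformConvergence

/-- Euclidean `n`-space. -/
abbrev E (n : ℕ) : Type := EuclideanSpace ℝ (Fin n)

/-- The closed unit ball. -/
def unitBall (n : ℕ) : Set (E n) := closedBall 0 1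

/-- Origin-symmetric convex bodies: compact, convex, with nonempty interior and `K = -K`. -/
structure IsSymConvexBody {n : ℕ} (K : Set (E n)) : Prop where
  isCompact : IsCompact K
  convex : Convex ℝ K
  interior_nonempty : (interior K).Nonempty
  neg_mem : ∀ x ∈ K, -x ∈ K

/-- The hyperplane through the origin orthogonal to `u`. -/
noncomputable abbrev hyp {n : ℕ} (u : E n) : Submodule ℝ (E n) := (ℝ ∙ u)ᗮ

/-- Lebesgue measure of the hyperplane `hyp u`. -/
noncomputable abbrev hypVol {n : ℕ} (u : E n) : Measure (hyp u) := volume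

/-- The `(n-1)`-dimensional volume of the section of `K` by the hyperplane through the origin
orthogonal to `u`. -/
noncomputable def secVol {n : ℕ} (K : Set (E n)) (u : E n) : ℝ :=
  (hypVol u {y : hyp u | (y : E n) ∈ K}).toReal

/-- The intersection body: the star body whose radial function is `secVol K` on unit vectors. -/
def interBody {n : ℕ} (K : Set (E n)) : Set (E n) :=
  {x | ∃ u : E n, ‖u‖ = 1 ∧ ∃ r : ℝ, 0 ≤ r ∧ r ≤ secVol K u ∧ x = r • u}

/-- The image of a set under an invertible linear map. -/
def linImage {n : ℕ} (T : E n ≃ₗ[ℝ] E n) (A : Set (E n)) : Set (E n) := T '' A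

/-- The Banach-Mazur distance of `A` and `B`: the infimum of the numbers `l ≥ 1` with
`B ⊆ T A ⊆ l B` for some invertible linear map `T`. -/
noncomputable def bmDist {n : ℕ} (A B : Set (E n)) : ℝ :=
  sInf {l : ℝ | 1 ≤ l ∧ ∃ T : E n ≃ₗ[ℝ] E n, B ⊆ linImage T A ∧ linImage T A ⊆ l • B}

/-- **Iterated intersection bodies converge to the ball, uniformly.** Let `n ≥ 3`.
(1) For every origin-symmetric convex body `K` in `R^n`, the Banach-Mazur distance of the `m`-th
iterated intersection body of `K` and the Euclidean ball tends to `1`.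
(2) The convergence is uniform in `K`: for every `ε > 0` there is `M` (depending on `n` and `ε`
only) such that for all `m ≥ M` and all origin-symmetric convex bodies `K` this distance lies
between `1` and `1 + ε`. -/
theorem result {n : ℕ} (hn : 3 ≤ n) :
    (∀ K : Set (E n), IsSymConvexBody K →
      Tendsto (fun m : ℕ => bmDist (interBody^[m] K) (unitBall n)) atTop (𝓝 1)) ∧
    (∀ ε : ℝ, 0 < ε → ∃ M : ℕ, ∀ m, M ≤ m → ∀ K : Set (E n), IsSymConvexBody K →
      1 ≤ bmDist (interBody^[m] K) (unitBall n) ∧
        bmDist (interBody^[m] K) (unitBall n) ≤ 1 + ε) := by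
  refine ⟨fun K hK => ?_, fun ε hε => ?_⟩
  · exact Pool.Agent.H638.IB.main_tendsto Pool.Agent.H638.IB.UNI_final hn K ⟨hK.1, hK.2, hK.3, hK.4⟩
  · obtain ⟨M, hM⟩ := Pool.Agent.H638.IB.main_uniform Pool.Agent.H638.IB.UNI_final hn ε hε
    exact ⟨M, fun m hm K hK => hM m hm K ⟨hK.1, hK.2, hK.3, hK.4⟩⟩

end Pool.Agent.Results.MP_5ac201_gt.UniformConvergence
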